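import Pool.Agent.K9h60.Inertia.Graphs

/-!
# Positive versus negative inertia: the exponent `5/2` is attained

`npos G`, `nneg G` (in `Pool/Agent/R360/NP/Inertia.lean`) are the numbers of positive and of
negative roots, with multiplicity, of the characteristic polynomial of the adjacency matrix of `G`.
-/

set_option autoImplicit false

open Pool.Agent.R360.NP (npos nneg)

namespace Pool.Agent.Results.MP_f59665_co.FiveHalves

/-- For every `N ≥ 1` there is a graph on `N ^ 5` vertices with `n⁻ ≤ 6 N ^ 2` and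
`n⁺ ≥ N ^ 5 - 6 N ^ 2`; hence there are graphs with `n⁺` arbitrarily large, `n⁻ > 0` and
`n⁺ ≥ (n⁻) ^ (5/2) / 100`. -/
theorem result :
    (∀ N : ℕ, 1 ≤ N → ∃ G : SimpleGraph (Fin (N ^ 5)),
      nneg G ≤ 6 * N ^ 2 ∧ N ^ 5 ≤ npos G + 6 * N ^ 2) ∧
    (∀ B : ℝ, ∃ (n : ℕ) (G : SimpleGraph (Fin n)), B < npos G ∧ 0 < nneg G ∧
      (nneg G : ℝ) ^ (5 / 2 : ℝ) ≤ 100 * npos G) :=
  ⟨Pool.Agent.K9h60.Inertia.graphs, Pool.Agent.K9h60.Inertia.attained⟩

end Pool.Agent.Results.MP_f59665_co.FiveHalves
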